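import Pool.Agent.Run7.h282.TS.COUNT

/-!
# MP_1e26d1_co, Q1 (partial): `t_*(k,s) ≤ t_*(k,r)` over long steps, many good uniformities

`T n k r` is the least number of edges of an `r`-graph on `n` vertices in which every set of `k` vertices
contains an edge (independence number less than `k`), `t k r` the limit superior (the limit, since the ratio is
nondecreasing) of `T n k r / C(n, r)`, and `tk k r = (k - 1) ^ (r - 1) / r! * t(k, r)` the rescaled density
`t_*(k, r)`. The definitions are in `Pool/Agent/Run7/h282/TS/Iface.lean`.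

The proof compares the upper bound `t(k,s) ≤ (4 + 5 (k - s) log k) / C(k,s)` (a lemma of the file
`Pool/Agent/TH173/RT/Near.lean`) with `t(k,r) ≥ 1 / C(k,r)`.
-/

set_option autoImplicit false

namespace Pool.Agent.Results.MP_1e26d1_co.LongSteps

open Run7.h282.TS

open Classical in
/-- (1) If `2 ≤ s < r ≤ k` and `(4 + 5 (k - s) log k) (k - s)^(r - s) ≤ (k - 1)^(r - s)` then
`t_*(k,s) ≤ t_*(k,r)`, so that `t_*(k,j-1) ≤ t_*(k,j)` for some `j` with `s < j ≤ r`.
(2) The hypothesis holds when `8 k log k ≤ (r - s) s`.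
(3) For some `c > 0` and all large `k`, the inequality `t_*(k,r-1) ≤ t_*(k,r)` of Q1 holds for at least
`c k / log k` of the `r` with `3 ≤ r ≤ k`. -/
theorem result :
    (∀ k s r : ℕ, 2 ≤ s → s < r → r ≤ k →
      (4 + 5 * ((k : ℝ) - s) * Real.log k) * ((k : ℝ) - s) ^ (r - s) ≤ ((k : ℝ) - 1) ^ (r - s) →
      tk k s ≤ tk k r ∧ ∃ j : ℕ, s < j ∧ j ≤ r ∧ tk k (j - 1) ≤ tk k j) ∧
    (∀ k s r : ℕ, 2 ≤ s → s < r → r ≤ k → 8 * (k : ℝ) * Real.log k ≤ ((r : ℝ) - s) * s →
      tk k s ≤ tk k r ∧ ∃ j : ℕ, s < j ∧ j ≤ r ∧ tk k (j - 1) ≤ tk k j) ∧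
    ∃ c : ℝ, 0 < c ∧ ∀ᶠ k : ℕ in Filter.atTop, c * ((k : ℝ) / Real.log k) ≤
      (((Finset.Icc 3 k).filter fun r => tk k (r - 1) ≤ tk k r).card : ℝ) := by
  refine ⟨fun k s r hs hsr hrk h => ?_, fun k s r hs hsr hrk h => ?_, count⟩
  · have h1 := rise k s r hs hsr hrk h
    exact ⟨h1, step_of_rise k s r hsr h1⟩
  · have h1 := rise k s r hs hsr hrk (cond k s r hs hsr hrk h)
    exact ⟨h1, step_of_rise k s r hsr h1⟩

end Pool.Agent.Results.MP_1e26d1_co.LongSteps
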